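import Mathlib

namespace Pool.Agent.Results.MP_3627f5_co.Lower
open Finset

/-- one move: pebble `p` goes from its vertex `a p` to an adjacent unoccupied vertex `v`
(a placement `a` sends each pebble to the vertex it occupies) -/
def Move {V : Type} {n : ℕ} (G : SimpleGraph V) (a b : Fin n → V) : Prop :=
  ∃ (p : Fin n) (v : V), G.Adj (a p) v ∧ (∀ q, a q ≠ v) ∧ b = Function.update a p v

/-- a sequence of exactly `m` moves transforms `a` into `b` -/
def Solves {V : Type} {n : ℕ} (G : SimpleGraph V) (a b : Fin n → V) (m : ℕ) : Prop :=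
  ∃ s : ℕ → Fin n → V, s 0 = a ∧ s m = b ∧ ∀ t < m, Move G (s t) (s (t + 1))

/-- deleting `v` disconnects `G` -/
def IsCutVertex {V : Type} (G : SimpleGraph V) (v : V) : Prop :=
  ¬ (G.induce {w | w ≠ v}).Preconnected

/-- `w` is an isthmus: a path whose edges are bridges, whose vertices are cut vertices and whose
inner vertices have degree 2 (it has `w.length + 1` vertices) -/
def IsIsthmus {V : Type} (G : SimpleGraph V) {x y : V} (w : G.Walk x y) : Prop :=
  w.IsPath ∧ (∀ e ∈ w.edges, G.IsBridge e) ∧ (∀ v ∈ w.support, IsCutVertex G v) ∧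
    ∀ i, 0 < i → i < w.length → (G.neighborSet (w.getVert i)).ncard = 2

/-! ### the tree: a path `0, …, 2L` with a leaf `2L+1` attached to its midpoint `L` -/

def T (L : ℕ) : SimpleGraph (Fin (2 * L + 2)) where
  Adj a b := (a.val + 1 = b.val ∧ b.val ≤ 2 * L) ∨ (b.val + 1 = a.val ∧ a.val ≤ 2 * L) ∨
    (a.val = L ∧ b.val = 2 * L + 1) ∨ (b.val = L ∧ a.val = 2 * L + 1)
  symm := ⟨fun a b h => by omega⟩
  loopless := ⟨fun a h => by omega⟩

lemma T_adj {L : ℕ} (a b : Fin (2 * L + 2)) : (T L).Adj a b ↔
    (a.val + 1 = b.val ∧ b.val ≤ 2 * L) ∨ (b.val + 1 = a.val ∧ a.val ≤ 2 * L) ∨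
    (a.val = L ∧ b.val = 2 * L + 1) ∨ (b.val = L ∧ a.val = 2 * L + 1) := Iff.rfl

lemma reach_inv {V : Type} {G : SimpleGraph V} (P : V → Prop)
    (h : ∀ a b, G.Adj a b → P a → P b) {a b : V} (hr : G.Reachable a b) (ha : P a) : P b := by
  obtain ⟨w⟩ := hr
  induction w with
  | nil => exact ha
  | cons hadj _ ih => exact ih (h _ _ hadj ha)

lemma T_tree (L : ℕ) : (T L).IsTree := by
  constructor
  · have key : ∀ k : ℕ, ∀ v : Fin (2 * L + 2), v.val = k → k ≤ 2 * L →
        (T L).Reachable ⟨0, by omega⟩ v := by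
      intro k
      induction k with
      | zero =>
        intro v hv _
        have : v = ⟨0, by omega⟩ := Fin.ext hv
        rw [this]
      | succ k ih =>
        intro v hv hk
        have h1 := ih ⟨k, by omega⟩ rfl (by omega)
        refine h1.trans (SimpleGraph.Adj.reachable ?_)
        rw [T_adj]; left; simp only; omega
    have key2 : ∀ v : Fin (2 * L + 2), (T L).Reachable ⟨0, by omega⟩ v := by
      intro v
      by_cases hv : v.val ≤ 2 * L
      · exact key _ v rfl hv
      · have h1 := key L ⟨L, by omega⟩ rfl (by omega)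
        refine h1.trans (SimpleGraph.Adj.reachable ?_)
        rw [T_adj]; have := v.isLt; right; right; left; exact ⟨rfl, by omega⟩
    exact ⟨fun u v => (key2 u).symm.trans (key2 v)⟩
  · rw [SimpleGraph.isAcyclic_iff_forall_adj_isBridge]
    have main : ∀ u v : Fin (2 * L + 2), ((u.val + 1 = v.val ∧ v.val ≤ 2 * L) ∨
        (u.val = L ∧ v.val = 2 * L + 1)) → (T L).IsBridge s(u, v) := by
      intro u v huv
      rw [SimpleGraph.isBridge_iff]
      intro hr
      have hne : ∀ a b : Fin (2 * L + 2), ((T L).deleteEdges {s(u, v)}).Adj a b →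
          (T L).Adj a b ∧ ¬ (a.val = u.val ∧ b.val = v.val) ∧ ¬ (a.val = v.val ∧ b.val = u.val) := by
        intro a b hab
        rw [SimpleGraph.deleteEdges_adj] at hab
        refine ⟨hab.1, ?_, ?_⟩
        · rintro ⟨h1, h2⟩
          apply hab.2
          rw [Fin.ext h1, Fin.ext h2]; simp
        · rintro ⟨h1, h2⟩
          apply hab.2
          rw [Fin.ext h1, Fin.ext h2]; simp
      have := reach_inv (fun a : Fin (2 * L + 2) =>
          if v.val = 2 * L + 1 then a.val ≠ 2 * L + 1 else
          if u.val < L then a.val ≤ u.val else (a.val ≤ u.val ∨ a.val = 2 * L + 1))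
        (by
          intro a b hab
          obtain ⟨h1, h2, h3⟩ := hne a b hab
          rw [T_adj] at h1
          split_ifs <;> omega) hr (by split_ifs <;> omega)
      split_ifs at this <;> omega
    intro u v huv
    rw [T_adj] at huv
    rcases huv with h | h | h | h
    · exact main u v (Or.inl h)
    · rw [Sym2.eq_swap]; exact main v u (Or.inl h)
    · exact main u v (Or.inr h)
    · rw [Sym2.eq_swap]; exact main v u (Or.inr h)

lemma T_deg (L : ℕ) (hL : 1 ≤ L) (v : Fin (2 * L + 2)) (hv : v.val = L) :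
    ((T L).neighborSet v).ncard ≠ 2 := by
  intro h
  have hsub : ({⟨L - 1, by omega⟩, ⟨L + 1, by omega⟩, ⟨2 * L + 1, by omega⟩} :
      Set (Fin (2 * L + 2))) ⊆ (T L).neighborSet v := by
    intro a ha
    simp only [Set.mem_insert_iff, Set.mem_singleton_iff] at ha
    rw [SimpleGraph.mem_neighborSet, T_adj]
    rcases ha with rfl | rfl | rfl <;> simp only [and_true] <;> omega
  have h3 := Set.ncard_le_ncard hsub (Set.toFinite _)
  rw [Set.ncard_insert_of_notMem (by simp [Fin.ext_iff]; omega),
    Set.ncard_pair (by simp [Fin.ext_iff]; omega)] at h3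
  omega

lemma T_isthmus (L : ℕ) (hL : 1 ≤ L) {x y : Fin (2 * L + 2)} (w : (T L).Walk x y)
    (hw : IsIsthmus (T L) w) : w.length ≤ L + 1 := by
  obtain ⟨hp, -, -, hd⟩ := hw
  by_contra hlen
  push Not at hlen
  have hne : ∀ i, 0 < i → i < w.length → (w.getVert i).val ≠ L :=
    fun i h1 h2 h3 => T_deg L hL _ h3 (hd i h1 h2)
  -- side of a vertex
  let side : Fin (2 * L + 2) → ℕ := fun a => if a.val < L then 0 else if a.val ≤ 2 * L then 1 else 2
  have hside : ∀ i, i + 1 < w.length → side (w.getVert (i + 1)) = side (w.getVert 1) := by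
    intro i
    induction i with
    | zero => intro _; rfl
    | succ i ih =>
      intro hi
      rw [← ih (by omega)]
      have hadj := w.adj_getVert_succ (i := i + 1) (by omega)
      have h1 := hne (i + 1) (by omega) (by omega)
      have h2 := hne (i + 1 + 1) (by omega) (by omega)
      rw [T_adj] at hadj
      simp only [side]
      split_ifs <;> omega
  let f : ℕ → ℕ := fun i => if (w.getVert (i + 1)).val < L then (w.getVert (i + 1)).val else
    if (w.getVert (i + 1)).val ≤ 2 * L then (w.getVert (i + 1)).val - (L + 1) else 0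
  have hmaps : ∀ i ∈ range (L + 1), f i ∈ range L := by
    intro i hi
    rw [mem_range] at hi ⊢
    have h1 := hne (i + 1) (by omega) (by omega)
    simp only [f]
    split_ifs <;> omega
  obtain ⟨i, hi, j, hj, hij, hf⟩ := exists_ne_map_eq_of_card_lt_of_maps_to
    (by simp) hmaps
  rw [mem_range] at hi hj
  apply hij
  have h1 := hside i (by omega)
  have h2 := hside j (by omega)
  have h3 := hne (i + 1) (by omega) (by omega)
  have h4 := hne (j + 1) (by omega) (by omega)
  have h5 : w.getVert (i + 1) = w.getVert (j + 1) := by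
    apply Fin.ext
    rw [← h2] at h1
    have := (w.getVert (i + 1)).isLt
    have := (w.getVert (j + 1)).isLt
    simp only [side, f] at h1 hf
    split_ifs at h1 hf <;> omega
  have := hp.getVert_injOn (by simp; omega : i + 1 ∈ {k | k ≤ w.length})
    (by simp; omega : j + 1 ∈ {k | k ≤ w.length}) h5
  omega

/-! ### the potential -/

/-- coordinate along the path (the leaf has coordinate 0) -/
def xc {L : ℕ} (v : Fin (2 * L + 2)) : ℤ := if v.val = 2 * L + 1 then 0 else (v.val : ℤ) - L

/-- the coordinate, with everything at distance `< d` from the midpoint collapsed to 0 -/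
def yc {L : ℕ} (d : ℕ) (v : Fin (2 * L + 2)) : ℤ := if (xc v).natAbs < d then 0 else xc v

def Phi {L n : ℕ} (h d : ℕ) (a : Fin n → Fin (2 * L + 2)) : ℕ :=
  (univ.filter fun pq : Fin n × Fin n =>
    pq.1.val < h ∧ h ≤ pq.2.val ∧ yc d (a pq.2) < yc d (a pq.1)).card

lemma xc_adj {L : ℕ} {u v : Fin (2 * L + 2)} (h : (T L).Adj u v) :
    xc u - xc v ≤ 1 ∧ xc v - xc u ≤ 1 := by
  rw [T_adj] at h
  unfold xc
  split_ifs <;> omega

lemma xc_inj {L : ℕ} {u v : Fin (2 * L + 2)} (h : xc u = xc v) (h0 : xc u ≠ 0) : u = v := by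
  apply Fin.ext
  unfold xc at h h0
  split_ifs at h h0 <;> omega

lemma yc_change {L : ℕ} {d : ℕ} (hd : 1 ≤ d) {u v z : Fin (2 * L + 2)} (h : (T L).Adj u v)
    (hu : z ≠ u) (hv : z ≠ v)
    (hc : (yc d z < yc d v ∧ ¬ yc d z < yc d u) ∨ (yc d v < yc d z ∧ ¬ yc d u < yc d z)) :
    (xc z).natAbs < d ∧ d = max (xc u).natAbs (xc v).natAbs := by
  have h1 := xc_adj h
  have h2 : xc z = xc u → xc z = 0 := fun e => by_contra fun e' => hu (xc_inj e e')
  have h3 : xc z = xc v → xc z = 0 := fun e => by_contra fun e' => hv (xc_inj e e')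
  unfold yc at hc
  generalize xc z = a at *
  generalize xc u = b at *
  generalize xc v = c at *
  split_ifs at hc <;> omega

lemma card_near {L : ℕ} (d : ℕ) (hd : 1 ≤ d) :
    (univ.filter fun v : Fin (2 * L + 2) => (xc v).natAbs < d).card ≤ 4 * d := by
  have h1 : (univ.filter fun v : Fin (2 * L + 2) => (xc v).natAbs < d).card ≤
      (insert (2 * L + 1) (Icc (L - d) (L + d))).card := by
    apply card_le_card_of_injOn (fun v => v.val)
    · intro v hv
      have hv := (mem_filter.1 (mem_coe.1 hv)).2
      simp only [xc] at hv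
      simp only [coe_insert, coe_Icc, Set.mem_insert_iff, Set.mem_Icc]
      split_ifs at hv <;> omega
    · intro u _ v _ e
      exact Fin.ext e
  have h2 := card_insert_le (2 * L + 1) (Icc (L - d) (L + d))
  rw [Nat.card_Icc] at h2
  omega

lemma move_inj {V : Type} {n : ℕ} {G : SimpleGraph V} {a b : Fin n → V} (h : Move G a b)
    (ha : Function.Injective a) : Function.Injective b := by
  obtain ⟨p, v, -, hv, rfl⟩ := h
  intro q r hqr
  by_cases h1 : q = p <;> by_cases h2 : r = p
  · rw [h1, h2]
  · rw [h1, Function.update_self, Function.update_of_ne h2] at hqr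
    exact absurd hqr.symm (hv r)
  · rw [h2, Function.update_self, Function.update_of_ne h1] at hqr
    exact absurd hqr (hv q)
  · rw [Function.update_of_ne h1, Function.update_of_ne h2] at hqr
    exact ha hqr

lemma Phi_move {L n : ℕ} (h : ℕ) {a b : Fin n → Fin (2 * L + 2)} (hm : Move (T L) a b)
    (ha : Function.Injective a) : ∃ e : ℕ, ∀ d, 1 ≤ d →
      Phi h d b ≤ Phi h d a + if d = e then 4 * d else 0 := by
  obtain ⟨p, v, hadj, hv, rfl⟩ := hm
  refine ⟨max (xc (a p)).natAbs (xc v).natAbs, fun d hd => ?_⟩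
  unfold Phi
  obtain ⟨A, hA⟩ : ∃ A, A = univ.filter fun pq : Fin n × Fin n =>
    pq.1.val < h ∧ h ≤ pq.2.val ∧ yc d (a pq.2) < yc d (a pq.1) := ⟨_, rfl⟩
  obtain ⟨B, hB⟩ : ∃ B, B = univ.filter fun pq : Fin n × Fin n =>
    pq.1.val < h ∧ h ≤ pq.2.val ∧ yc d (Function.update a p v pq.2) <
      yc d (Function.update a p v pq.1) := ⟨_, rfl⟩
  rw [← hA, ← hB]
  have key : ∀ pq ∈ B \ A, ((pq.1 = p ∧ pq.2 ≠ p) ∨ (pq.2 = p ∧ pq.1 ≠ p)) ∧ pq.1.val < h ∧
      h ≤ pq.2.val ∧ (xc (a (if pq.1 = p then pq.2 else pq.1))).natAbs < d ∧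
      d = max (xc (a p)).natAbs (xc v).natAbs := by
    rintro ⟨q, r⟩ hqr
    rw [mem_sdiff, hA, hB] at hqr
    simp only [mem_filter, mem_univ, true_and, not_and] at hqr
    obtain ⟨⟨h1, h2, h3⟩, h4⟩ := hqr
    have h4 := h4 h1 h2
    simp only
    by_cases e1 : q = p <;> by_cases e2 : r = p
    · rw [e1] at h1; rw [e2] at h2; omega
    · rw [e1, Function.update_self, Function.update_of_ne e2] at h3
      rw [e1] at h4
      have := yc_change hd hadj (fun e => e2 (ha e)) (hv r) (Or.inl ⟨h3, h4⟩)
      rw [if_pos e1]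
      exact ⟨Or.inl ⟨e1, e2⟩, h1, h2, this⟩
    · rw [e2, Function.update_self, Function.update_of_ne e1] at h3
      rw [e2] at h4
      have := yc_change hd hadj (fun e => e1 (ha e)) (hv q) (Or.inr ⟨h3, h4⟩)
      rw [if_neg e1]
      exact ⟨Or.inr ⟨e2, e1⟩, h1, h2, this⟩
    · rw [Function.update_of_ne e1, Function.update_of_ne e2] at h3
      exact absurd h3 h4
  have h1 : B.card ≤ A.card + (B \ A).card := by
    have := card_sdiff_add_card_inter B A
    have := card_le_card (inter_subset_right (s₁ := B) (s₂ := A))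
    omega
  have h2 : (B \ A).card ≤ if d = max (xc (a p)).natAbs (xc v).natAbs then 4 * d else 0 := by
    split_ifs with he
    · refine le_trans ?_ (card_near (L := L) d hd)
      apply card_le_card_of_injOn (fun pq => a (if pq.1 = p then pq.2 else pq.1))
      · intro pq hpq
        have := key pq (by simpa using hpq)
        simp only [coe_filter, mem_univ, true_and, Set.mem_ofPred_eq]
        exact this.2.2.2.1
      · rintro ⟨q, r⟩ hq ⟨q', r'⟩ hq' e
        have k1 := key _ (mem_coe.1 hq)
        have k2 := key _ (mem_coe.1 hq')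
        have e := ha e
        simp only at k1 k2 e
        obtain ⟨k1, k1a, k1b, -⟩ := k1
        obtain ⟨k2, k2a, k2b, -⟩ := k2
        rcases k1 with ⟨c1, c2⟩ | ⟨c1, c2⟩ <;> rcases k2 with ⟨c3, c4⟩ | ⟨c3, c4⟩
        · rw [if_pos c1, if_pos c3] at e
          rw [c1, c3, e]
        · rw [c1] at k1a; rw [c3] at k2b; omega
        · rw [c1] at k1b; rw [c3] at k2a; omega
        · rw [if_neg c2, if_neg c4] at e
          rw [c1, c3, e]
    · rw [Nat.le_zero, card_eq_zero, eq_empty_iff_forall_notMem]
      intro pq hpq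
      exact he (key pq hpq).2.2.2.2
  omega

noncomputable def Psi {L n : ℕ} (h D : ℕ) (a : Fin n → Fin (2 * L + 2)) : ℝ :=
  ∑ i ∈ range D, (Phi h (i + 1) a : ℝ) / (4 * ((i : ℝ) + 1))

lemma Psi_move {L n : ℕ} (h D : ℕ) {a b : Fin n → Fin (2 * L + 2)} (hm : Move (T L) a b)
    (ha : Function.Injective a) : Psi h D b ≤ Psi h D a + 1 := by
  obtain ⟨e, he⟩ := Phi_move h hm ha
  have h1 : ∀ i ∈ range D, (Phi h (i + 1) b : ℝ) / (4 * ((i : ℝ) + 1)) ≤
      (Phi h (i + 1) a : ℝ) / (4 * ((i : ℝ) + 1)) + if i = e - 1 then 1 else 0 := by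
    intro i _
    have h2 := he (i + 1) (by omega)
    have hpos : (0 : ℝ) < 4 * ((i : ℝ) + 1) := by positivity
    by_cases h3 : i + 1 = e
    · rw [if_pos h3] at h2
      rw [if_pos (by omega), div_add_one hpos.ne']
      apply div_le_div_of_nonneg_right _ hpos.le
      exact_mod_cast h2
    · rw [if_neg h3, add_zero] at h2
      have h4 : (Phi h (i + 1) b : ℝ) / (4 * ((i : ℝ) + 1)) ≤
          (Phi h (i + 1) a : ℝ) / (4 * ((i : ℝ) + 1)) :=
        div_le_div_of_nonneg_right (by exact_mod_cast h2) hpos.le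
      split_ifs <;> linarith
  unfold Psi
  refine (sum_le_sum h1).trans ?_
  rw [sum_add_distrib, sum_ite_eq']
  split_ifs <;> linarith

lemma Psi_solves {L n : ℕ} (h D : ℕ) {a b : Fin n → Fin (2 * L + 2)} {m : ℕ}
    (hs : Solves (T L) a b m) (ha : Function.Injective a) : Psi h D b ≤ Psi h D a + m := by
  obtain ⟨s, h0, hm, hs⟩ := hs
  have : ∀ t ≤ m, Function.Injective (s t) ∧ Psi h D (s t) ≤ Psi h D a + t := by
    intro t
    induction t with
    | zero => intro _; rw [h0]; exact ⟨ha, by simp⟩
    | succ t ih =>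
      intro ht
      obtain ⟨i1, i2⟩ := ih (by omega)
      have h1 := hs t (by omega)
      refine ⟨move_inj h1 i1, ?_⟩
      have := Psi_move h D h1 i1
      push_cast
      linarith
  rw [← hm]
  exact (this m le_rfl).2

/-! ### solvability -/

lemma move_symm {V : Type} {n : ℕ} {G : SimpleGraph V} {a b : Fin n → V} (h : Move G a b)
    (ha : Function.Injective a) : Move G b a := by
  obtain ⟨p, v, hadj, hv, rfl⟩ := h
  refine ⟨p, a p, by rw [Function.update_self]; exact hadj.symm, ?_, by simp⟩
  intro q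
  by_cases hq : q = p
  · rw [hq, Function.update_self]; exact hadj.ne.symm
  · rw [Function.update_of_ne hq]; exact fun e => hq (ha e)

abbrev Reach {V : Type} {n : ℕ} (G : SimpleGraph V) : (Fin n → V) → (Fin n → V) → Prop :=
  Relation.ReflTransGen (Move G)

lemma reach_inj {V : Type} {n : ℕ} {G : SimpleGraph V} {a b : Fin n → V} (h : Reach G a b)
    (ha : Function.Injective a) : Function.Injective b := by
  induction h with
  | refl => exact ha
  | tail _ h ih => exact move_inj h ih

lemma reach_symm {V : Type} {n : ℕ} {G : SimpleGraph V} {a b : Fin n → V} (h : Reach G a b)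
    (ha : Function.Injective a) : Reach G b a := by
  induction h with
  | refl => exact Relation.ReflTransGen.refl
  | tail h1 h ih => exact Relation.ReflTransGen.head (move_symm h (reach_inj h1 ha)) ih

lemma reach_perm {V : Type} {n : ℕ} {G : SimpleGraph V} {a b : Fin n → V} (h : Reach G a b)
    (σ : Equiv.Perm (Fin n)) : Reach G (a ∘ σ) (b ∘ σ) := by
  induction h with
  | refl => exact Relation.ReflTransGen.refl
  | tail _ h ih =>
    refine ih.tail ?_
    obtain ⟨p, v, hadj, hv, rfl⟩ := h
    refine ⟨σ.symm p, v, by simpa using hadj, fun q => hv _, ?_⟩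
    funext q
    by_cases hq : q = σ.symm p
    · rw [hq]; simp
    · rw [Function.update_of_ne hq, Function.comp_apply, Function.comp_apply,
        Function.update_of_ne]
      intro e; apply hq; rw [← e]; simp

lemma reach_solves {V : Type} {n : ℕ} {G : SimpleGraph V} {a b : Fin n → V} (h : Reach G a b) :
    ∃ m, Solves G a b m := by
  induction h with
  | refl => exact ⟨0, fun _ => a, rfl, rfl, fun t ht => absurd ht (by omega)⟩
  | @tail b c _ h ih =>
    obtain ⟨m, s, h0, hm, hs⟩ := ih
    refine ⟨m + 1, fun t => if t ≤ m then s t else c, by simp [h0], by simp, ?_⟩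
    intro t ht
    by_cases h1 : t < m
    · simp only [if_pos h1.le, if_pos (show t + 1 ≤ m from h1)]
      exact hs t h1
    · have : t = m := by omega
      subst this
      simp only [le_refl, if_true, if_neg (show ¬ t + 1 ≤ t by omega), hm]
      exact h

def base {L n : ℕ} (hn : n ≤ L) : Fin n → Fin (2 * L + 2) := fun i => ⟨i.val, by omega⟩

lemma slide {L n : ℕ} (hn : n ≤ L) : ∀ (k : ℕ) (a : Fin n → Fin (2 * L + 2)),
    ∑ i, (a i).val = k → StrictMono a → (∀ i, (a i).val ≤ 2 * L) → Reach (T L) a (base hn) := by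
  intro k
  induction k using Nat.strong_induction_on with
  | _ k ih =>
    intro a hk hmono hle
    by_cases hall : ∀ i, (a i).val = i.val
    · have : a = base hn := funext fun i => Fin.ext (hall i)
      rw [this]
    push Not at hall
    obtain ⟨p, hp, hmin⟩ := (univ.filter fun i => (a i).val ≠ i.val).exists_min_image
      (fun i => i.val) (by obtain ⟨i, hi⟩ := hall; exact ⟨i, by simpa using hi⟩)
    simp only [mem_filter, mem_univ, true_and] at hp hmin
    have hlow : ∀ q : Fin n, q < p → (a q).val = q.val := by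
      intro q hq
      by_contra e
      have := hmin q e
      have : q.val < p.val := hq
      omega
    have hp1 : p.val < (a p).val := by
      by_cases h0 : p.val = 0
      · omega
      · have hq : (⟨p.val - 1, by omega⟩ : Fin n) < p := by
          show p.val - 1 < p.val
          omega
        have h1 := hlow _ hq
        have h2 : (a _).val < (a p).val := hmono hq
        simp only at h1
        omega
    have hlt : ∀ q : Fin n, q < p → (a q).val < (a p).val - 1 := by
      intro q hq
      have := hlow q hq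
      have : q.val < p.val := hq
      omega
    have hgt : ∀ q : Fin n, p < q → (a p).val < (a q).val := fun q hq => hmono hq
    let v : Fin (2 * L + 2) := ⟨(a p).val - 1, by omega⟩
    have hmove : Move (T L) a (Function.update a p v) := by
      refine ⟨p, v, ?_, ?_, rfl⟩
      · rw [T_adj]; right; left; exact ⟨by simp only [v]; omega, hle p⟩
      · intro q e
        have e : (a q).val = (a p).val - 1 := congrArg Fin.val e
        rcases lt_trichotomy q p with h | h | h
        · have := hlt q h; omega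
        · rw [h] at e; omega
        · have := hgt q h; omega
    refine Relation.ReflTransGen.head hmove (ih (k - 1) ?_ _ ?_ ?_ ?_)
    · have := single_le_sum (f := fun i => (a i).val) (fun i _ => Nat.zero_le _) (mem_univ p)
      omega
    · rw [← add_sum_erase _ _ (mem_univ p)] at hk ⊢
      have : ∑ x ∈ univ.erase p, (Function.update a p v x).val = ∑ x ∈ univ.erase p, (a x).val :=
        sum_congr rfl fun x hx => by rw [Function.update_of_ne (ne_of_mem_erase hx)]
      rw [this, Function.update_self]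
      simp only [v]
      omega
    · intro q r hqr
      by_cases e1 : q = p
      · have e2 : r ≠ p := fun e => by rw [e1, e] at hqr; exact lt_irrefl _ hqr
        rw [e1, Function.update_self, Function.update_of_ne e2]
        have := hgt r (e1 ▸ hqr)
        show (a p).val - 1 < (a r).val
        omega
      · by_cases e2 : r = p
        · rw [e2, Function.update_self, Function.update_of_ne e1]
          exact hlt q (e2 ▸ hqr)
        · rw [Function.update_of_ne e1, Function.update_of_ne e2]
          exact hmono hqr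
    · intro q
      by_cases e1 : q = p
      · rw [e1, Function.update_self]
        have := hle p
        simp only [v]
        omega
      · rw [Function.update_of_ne e1]; exact hle q

/-- pebbles `< i` left of the junction, pebbles `> i+1` right of it, `i` at `x`, `i+1` at `y` -/
def cf {L n : ℕ} (hn : n ≤ L) (i : ℕ) (x y : Fin (2 * L + 2)) : Fin n → Fin (2 * L + 2) :=
  fun j => if j.val = i then x else if j.val = i + 1 then y else
    if j.val < i then ⟨j.val, by omega⟩ else ⟨L + j.val, by omega⟩

lemma cf_val {L n : ℕ} (hn : n ≤ L) (i : ℕ) (x y : Fin (2 * L + 2)) (j : Fin n) :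
    (cf hn i x y j).val = if j.val = i then x.val else if j.val = i + 1 then y.val else
      if j.val < i then j.val else L + j.val := by
  unfold cf
  split_ifs <;> rfl

lemma cf_move1 {L n : ℕ} (hn : n ≤ L) (i : ℕ) (hi : i + 1 < n) (x x' y : Fin (2 * L + 2))
    (hadj : (T L).Adj x x') (hy : y.val ≠ x'.val)
    (hx : x'.val = L ∨ x'.val = L + 1 ∨ x'.val = 2 * L + 1) :
    Move (T L) (cf hn i x y) (cf hn i x' y) := by
  refine ⟨⟨i, by omega⟩, x', by simpa [cf] using hadj, ?_, ?_⟩
  · intro q e
    have e := congrArg Fin.val e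
    have hne : x.val ≠ x'.val := fun e => hadj.ne (Fin.ext e)
    rw [cf_val] at e
    have := q.isLt
    split_ifs at e <;> omega
  · funext j
    by_cases hj : j = ⟨i, by omega⟩
    · rw [hj, Function.update_self]; simp [cf]
    · rw [Function.update_of_ne hj]
      have : j.val ≠ i := fun e => hj (Fin.ext e)
      simp [cf, this]

lemma cf_move2 {L n : ℕ} (hn : n ≤ L) (i : ℕ) (hi : i + 1 < n) (x y y' : Fin (2 * L + 2))
    (hadj : (T L).Adj y y') (hy : x.val ≠ y'.val)
    (hx : y'.val = L ∨ y'.val = L + 1 ∨ y'.val = 2 * L + 1) :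
    Move (T L) (cf hn i x y) (cf hn i x y') := by
  refine ⟨⟨i + 1, by omega⟩, y', by simpa [cf] using hadj, ?_, ?_⟩
  · intro q e
    have e := congrArg Fin.val e
    have hne : y.val ≠ y'.val := fun e => hadj.ne (Fin.ext e)
    rw [cf_val] at e
    have := q.isLt
    split_ifs at e <;> omega
  · funext j
    by_cases hj : j = ⟨i + 1, by omega⟩
    · rw [hj, Function.update_self]; simp [cf]
    · rw [Function.update_of_ne hj]
      have : j.val ≠ i + 1 := fun e => hj (Fin.ext e)
      simp [cf, this]

lemma base_inj {L n : ℕ} (hn : n ≤ L) : Function.Injective (base hn) :=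
  fun _ _ e => Fin.ext (by simpa [base] using e)

lemma cf_slide {L n : ℕ} (hn : n ≤ L) (i : ℕ) (hi : i + 1 < n) (x y : Fin (2 * L + 2))
    (h1 : L - 1 ≤ x.val) (h2 : x.val < y.val) (h3 : y.val ≤ L + 1) :
    StrictMono (cf hn i x y) ∧ Reach (T L) (cf hn i x y) (base hn) := by
  have hm : StrictMono (cf hn i x y) := by
    intro q r hqr
    have hqr : q.val < r.val := hqr
    show (cf hn i x y q).val < (cf hn i x y r).val
    rw [cf_val, cf_val]
    have := r.isLt
    split_ifs <;> omega
  refine ⟨hm, slide hn _ _ rfl hm fun j => ?_⟩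
  rw [cf_val]
  have := j.isLt
  split_ifs <;> omega

lemma reach_swap {L n : ℕ} (hn : n + 1 ≤ L) (i : Fin n) :
    Reach (T L) (base hn) (base hn ∘ Equiv.swap i.castSucc i.succ) := by
  have hi : i.val + 1 < n + 1 := by omega
  let A : Fin (2 * L + 2) := ⟨L - 1, by omega⟩
  let B : Fin (2 * L + 2) := ⟨L, by omega⟩
  let C : Fin (2 * L + 2) := ⟨L + 1, by omega⟩
  let D : Fin (2 * L + 2) := ⟨2 * L + 1, by omega⟩
  have hA : A.val = L - 1 := rfl
  have hB : B.val = L := rfl
  have hC : C.val = L + 1 := rfl
  have hD : D.val = 2 * L + 1 := rfl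
  obtain ⟨m1, r1⟩ := cf_slide hn i hi A B (by omega) (by omega) (by omega)
  obtain ⟨m2, r2⟩ := cf_slide hn i hi B C (by omega) (by omega) (by omega)
  have s1 := cf_move2 hn i hi A B D (by rw [T_adj]; omega) (by omega) (by omega)
  have s2 := cf_move1 hn i hi A B D (by rw [T_adj]; omega) (by omega) (by omega)
  have s3 := cf_move1 hn i hi B C D (by rw [T_adj]; omega) (by omega) (by omega)
  have s4 := cf_move2 hn i hi C D B (by rw [T_adj]; omega) (by omega) (by omega)
  have e : cf hn i B C ∘ Equiv.swap i.castSucc i.succ = cf hn i C B := by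
    funext j
    rw [Function.comp_apply, Equiv.swap_apply_def]
    split_ifs with h1 h2
    · rw [h1]; simp [cf]
    · rw [h2]; simp [cf]
    · have h1 : j.val ≠ i.val := fun e => h1 (Fin.ext e)
      have h2 : j.val ≠ i.val + 1 := fun e => h2 (Fin.ext e)
      simp [cf, h1, h2]
  have r3 := reach_perm r2 (Equiv.swap i.castSucc i.succ)
  rw [e] at r3
  exact ((((((reach_symm r1 m1.injective).tail s1).tail s2).tail s3).tail s4).trans r3)

lemma reach_all {L n : ℕ} (hn : n + 1 ≤ L) (σ : Equiv.Perm (Fin (n + 1))) :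
    Reach (T L) (base hn) (base hn ∘ σ) := by
  have hσ : σ ∈ Submonoid.closure
      (Set.range fun i : Fin n => Equiv.swap i.castSucc i.succ) := by
    rw [Equiv.Perm.mclosure_swap_castSucc_succ]; trivial
  induction hσ using Submonoid.closure_induction with
  | mem x hx => obtain ⟨i, rfl⟩ := hx; exact reach_swap hn i
  | one => exact Relation.ReflTransGen.refl
  | mul x y _ _ hx hy => exact hy.trans (reach_perm hx y)

/-- start: `h+1` pebbles at each end of the path -/
def start (h : ℕ) : Fin (2 * h + 1 + 1) → Fin (2 * (2 * h + 3) + 2) :=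
  fun j => if j.val < h + 1 then ⟨j.val, by omega⟩ else ⟨j.val + (2 * h + 5), by omega⟩

lemma start_val (h : ℕ) (j : Fin (2 * h + 1 + 1)) :
    (start h j).val = if j.val < h + 1 then j.val else j.val + (2 * h + 5) := by
  unfold start
  split_ifs <;> rfl

lemma start_mono (h : ℕ) : StrictMono (start h) := by
  intro q r hqr
  have hqr : q.val < r.val := hqr
  show (start h q).val < (start h r).val
  rw [start_val, start_val]
  split_ifs <;> omega

lemma start_reach (h : ℕ) : Reach (T (2 * h + 3)) (start h) (start h ∘ Fin.revPerm) := by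
  have hn : 2 * h + 1 + 1 ≤ 2 * h + 3 := by omega
  have r1 : Reach (T (2 * h + 3)) (start h) (base hn) := slide hn _ _ rfl (start_mono h) fun j => by
    rw [start_val]
    have := j.isLt
    split_ifs <;> omega
  exact (r1.trans (reach_all hn Fin.revPerm)).trans
    (reach_perm (reach_symm r1 (start_mono h).injective) _)

lemma xc_start (h : ℕ) (j : Fin (2 * h + 1 + 1)) :
    (j.val < h + 1 → xc (start h j) ≤ -(h + 3 : ℤ)) ∧ (h + 1 ≤ j.val → (h + 3 : ℤ) ≤ xc (start h j)) := by
  unfold xc
  have h1 := start_val h j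
  have := j.isLt
  split_ifs at h1 ⊢ <;> omega

lemma Psi_start (h : ℕ) : Psi (h + 1) (h + 3) (start h) = 0 := by
  unfold Psi
  apply sum_eq_zero
  intro i _
  have : Phi (h + 1) (i + 1) (start h) = 0 := by
    unfold Phi
    rw [card_eq_zero, filter_eq_empty_iff]
    rintro ⟨p, q⟩ _ ⟨h1, h2, h3⟩
    have k1 := (xc_start h p).1 h1
    have k2 := (xc_start h q).2 h2
    simp only [yc] at h3
    split_ifs at h3 <;> omega
  rw [this]; simp

lemma Psi_end (h : ℕ) : ((h : ℝ) + 1) ^ 2 / 4 * Real.log (h + 4) ≤
    Psi (h + 1) (h + 3) (start h ∘ Fin.revPerm) := by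
  have h1 : ∀ i ∈ range (h + 3), (h + 1) * (h + 1) ≤
      Phi (h + 1) (i + 1) (start h ∘ Fin.revPerm) := by
    intro i hi
    rw [mem_range] at hi
    unfold Phi
    have : (h + 1) * (h + 1) = (univ : Finset (Fin (h + 1) × Fin (h + 1))).card := by simp
    rw [this]
    apply card_le_card_of_injOn
      (fun pq => ((⟨pq.1.val, by omega⟩, ⟨pq.2.val + (h + 1), by omega⟩) :
        Fin (2 * h + 1 + 1) × Fin (2 * h + 1 + 1)))
    · rintro ⟨p, q⟩ _
      simp only [coe_filter, mem_univ, true_and, Set.mem_ofPred_eq, Function.comp_apply,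
        Fin.revPerm_apply]
      refine ⟨p.isLt, by omega, ?_⟩
      have k1 := (xc_start h (Fin.rev ⟨p.val, by omega⟩)).2 (by rw [Fin.val_rev]; simp only; omega)
      have k2 := (xc_start h (Fin.rev ⟨q.val + (h + 1), by omega⟩)).1
        (by rw [Fin.val_rev]; simp only; omega)
      simp only [yc]
      split_ifs <;> omega
    · rintro ⟨p, q⟩ _ ⟨p', q'⟩ _ e
      simp only [Prod.mk.injEq, Fin.mk.injEq] at e
      exact Prod.ext (Fin.ext e.1) (Fin.ext (by have := e.2; simp only; omega))
  have h2 := log_add_one_le_harmonic (h + 3)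
  have h3 : ((harmonic (h + 3) : ℚ) : ℝ) = ∑ i ∈ range (h + 3), 1 / ((i : ℝ) + 1) := by
    unfold harmonic
    push_cast
    exact sum_congr rfl fun i _ => by rw [one_div]
  have h4 : ((h + 3 + 1 : ℕ) : ℝ) = h + 4 := by push_cast; ring
  rw [h3, h4] at h2
  calc ((h : ℝ) + 1) ^ 2 / 4 * Real.log (h + 4)
      ≤ ((h : ℝ) + 1) ^ 2 / 4 * ∑ i ∈ range (h + 3), 1 / ((i : ℝ) + 1) :=
        mul_le_mul_of_nonneg_left h2 (by positivity)
    _ = ∑ i ∈ range (h + 3), ((h : ℝ) + 1) ^ 2 / (4 * ((i : ℝ) + 1)) := by
        rw [mul_sum]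
        exact sum_congr rfl fun i _ => by field_simp
    _ ≤ _ := by
        unfold Psi
        apply sum_le_sum
        intro i hi
        apply div_le_div_of_nonneg_right _ (by positivity)
        have := h1 i hi
        have : (((h + 1) * (h + 1) : ℕ) : ℝ) ≤ _ := Nat.cast_le.2 this
        push_cast at this
        nlinarith

theorem result : ∃ c : ℝ, 0 < c ∧ ∀ N₀ : ℕ, ∃ N ≥ N₀, ∃ (G : SimpleGraph (Fin N)) (n : ℕ)
    (f g : Fin n → Fin N), G.IsTree ∧ n < N ∧
    (∀ (x y : Fin N) (w : G.Walk x y), IsIsthmus G w → n + (w.length + 1) < N) ∧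
    Function.Injective f ∧ Function.Injective g ∧ (∃ m, Solves G f g m) ∧
    ∀ m, Solves G f g m → c * (N : ℝ) ^ 2 * Real.log N ≤ m := by
  refine ⟨1 / 512, by norm_num, fun h => ⟨2 * (2 * h + 3) + 2, by omega, T (2 * h + 3),
    2 * h + 1 + 1, start h, start h ∘ Fin.revPerm, T_tree _, by omega, ?_,
    (start_mono h).injective, (start_mono h).injective.comp Fin.revPerm.injective,
    reach_solves (start_reach h), ?_⟩⟩
  · intro x y w hw
    have := T_isthmus _ (by omega) w hw
    omega
  · intro m hm
    have h1 := Psi_solves (h + 1) (h + 3) hm (start_mono h).injective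
    rw [Psi_start, zero_add] at h1
    have h2 := Psi_end h
    have h0 : (0 : ℝ) ≤ h := Nat.cast_nonneg h
    have h3 : Real.log ((2 * (2 * h + 3) + 2 : ℕ) : ℝ) ≤ 2 * Real.log (h + 4) := by
      have : 2 * Real.log ((h : ℝ) + 4) = Real.log ((h + 4) ^ 2) := by
        rw [Real.log_pow]; norm_num
      rw [this]
      apply Real.log_le_log (by positivity)
      push_cast
      nlinarith
    have h4 : (((2 * (2 * h + 3) + 2 : ℕ) : ℝ)) ^ 2 ≤ 64 * ((h : ℝ) + 1) ^ 2 := by
      push_cast
      nlinarith
    have h5 : 0 ≤ Real.log ((2 * (2 * h + 3) + 2 : ℕ) : ℝ) := Real.log_natCast_nonneg _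
    calc 1 / 512 * (((2 * (2 * h + 3) + 2 : ℕ) : ℝ)) ^ 2 * Real.log ((2 * (2 * h + 3) + 2 : ℕ) : ℝ)
        ≤ 1 / 512 * (64 * ((h : ℝ) + 1) ^ 2) * (2 * Real.log (h + 4)) := by
          apply mul_le_mul _ h3 h5 (by positivity)
          exact mul_le_mul_of_nonneg_left h4 (by norm_num)
      _ = ((h : ℝ) + 1) ^ 2 / 4 * Real.log (h + 4) := by ring
      _ ≤ m := h2.trans h1

end Pool.Agent.Results.MP_3627f5_co.Lower
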